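import Pool.Agent.R410.OR.Val

/-!
# Hasse-Witt matrices of Laurent polynomials over valued fields
-/

set_option autoImplicit false
set_option linter.all false

open AddMonoidAlgebra

namespace Pool.Agent.NH36.Trop

open Pool.Agent.R410.OR (red red_of)

/-- the Hasse-Witt matrix of a Laurent polynomial -/
noncomputable def hw {R : Type*} [CommRing R] {n : ℕ} (p : ℕ) (I : Finset (Fin n → ℤ))
    (f : AddMonoidAlgebra R (Fin n → ℤ)) : Matrix I I R :=
  Matrix.of fun u v => (f ^ (p - 1)).coeff (p • (u : Fin n → ℤ) - v)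

theorem hw_map {R S : Type*} [CommRing R] [CommRing S] (φ : R →+* S) {n : ℕ} (p : ℕ)
    (I : Finset (Fin n → ℤ)) (f : AddMonoidAlgebra R (Fin n → ℤ)) :
    hw p I (mapRingHom _ φ f) = φ.mapMatrix (hw p I f) := by
  ext u v
  simp only [hw, Matrix.of_apply, RingHom.mapMatrix_apply, Matrix.map_apply]
  rw [← map_pow, coeff_mapRingHom]

section coeff
variable {R : Type*} [CommRing R] {n : ℕ}

theorem prod_single {ι : Type*} (s : Finset ι) (x : ι → Fin n → ℤ) (a : ι → R) (k : ι → ℕ) :
    ∏ i ∈ s, (single (x i) (a i) : AddMonoidAlgebra R (Fin n → ℤ)) ^ k i =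
      single (∑ i ∈ s, k i • x i) (∏ i ∈ s, a i ^ k i) := by
  classical
  induction s using Finset.induction_on with
  | empty => simp [one_def]
  | insert i s hi ih =>
    rw [Finset.prod_insert hi, Finset.sum_insert hi, Finset.prod_insert hi, ih, single_pow,
      single_mul_single]

/-- the coefficients of a power -/
theorem coeff_pow (f : AddMonoidAlgebra R (Fin n → ℤ)) (s : Finset (Fin n → ℤ))
    (hs : ∀ w, w ∉ s → f.coeff w = 0) (m : ℕ) (x : Fin n → ℤ) :
    (f ^ m).coeff x = ∑ k ∈ s.piAntidiag m, if ∑ w ∈ s, k w • w = x then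
      (Nat.multinomial s k : R) * ∏ w ∈ s, f.coeff w ^ k w else 0 := by
  classical
  have h1 : f = ∑ w ∈ s, single w (f.coeff w) := by
    ext y
    rw [coeff_sum, Finsupp.finset_sum_apply]
    simp only [coeff_single, Finsupp.single_apply]
    rw [Finset.sum_ite_eq' s y]
    split_ifs with h
    · rfl
    · exact hs y h
  conv_lhs => rw [h1]
  rw [Finset.sum_pow_eq_sum_piAntidiag, coeff_sum, Finsupp.finset_sum_apply]
  refine Finset.sum_congr rfl fun k _ => ?_
  rw [prod_single]
  rw [← nsmul_eq_mul, coeff_smul, Finsupp.smul_apply, coeff_single, Finsupp.single_apply]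
  split_ifs with h
  · rw [nsmul_eq_mul]
  · simp

end coeff

/-- characters -/
noncomputable def ch {L : Type*} [Field L] {n : ℕ} (t : Fin n → L) (w : Fin n → ℤ) : L :=
  ∏ i, t i ^ w i

section ch
variable {L : Type*} [Field L] {n : ℕ} {t : Fin n → L}

theorem ch_ne_zero (ht : ∀ i, t i ≠ 0) (w : Fin n → ℤ) : ch t w ≠ 0 :=
  Finset.prod_ne_zero_iff.2 fun i _ => zpow_ne_zero _ (ht i)

theorem ch_zero : ch t (0 : Fin n → ℤ) = 1 := by simp [ch]

theorem ch_add (ht : ∀ i, t i ≠ 0) (v w : Fin n → ℤ) : ch t (v + w) = ch t v * ch t w := by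
  unfold ch
  rw [← Finset.prod_mul_distrib]
  exact Finset.prod_congr rfl fun i _ => zpow_add₀ (ht i) _ _

theorem ch_nsmul (ht : ∀ i, t i ≠ 0) (k : ℕ) (w : Fin n → ℤ) : ch t (k • w) = ch t w ^ k := by
  induction k with
  | zero => rw [zero_smul, ch_zero, pow_zero]
  | succ k ih => rw [succ_nsmul, ch_add ht, ih, pow_succ]

theorem ch_sum (ht : ∀ i, t i ≠ 0) {ι : Type*} (s : Finset ι) (k : ι → ℕ) (x : ι → Fin n → ℤ) :
    ch t (∑ i ∈ s, k i • x i) = ∏ i ∈ s, ch t (x i) ^ k i := by
  classical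
  induction s using Finset.induction_on with
  | empty => simp [ch_zero]
  | insert i s hi ih => rw [Finset.sum_insert hi, Finset.prod_insert hi, ch_add ht, ch_nsmul ht, ih]

theorem ch_sub (ht : ∀ i, t i ≠ 0) (v w : Fin n → ℤ) : ch t (v - w) = ch t v / ch t w := by
  rw [eq_div_iff (ch_ne_zero ht w), ← ch_add ht, sub_add_cancel]

theorem map_ch {L' : Type*} [Field L'] (φ : L →+* L') (w : Fin n → ℤ) :
    φ (ch t w) = ch (fun i => φ (t i)) w := by
  unfold ch
  rw [map_prod]
  exact Finset.prod_congr rfl fun i _ => map_zpow₀ φ _ _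

/-- the coefficients of the powers of a twisted polynomial -/
theorem coeff_twist (ht : ∀ i, t i ≠ 0) (e : L) (f g : AddMonoidAlgebra L (Fin n → ℤ))
    (hg : ∀ w, g.coeff w = e * ch t w * f.coeff w) (m : ℕ) (x : Fin n → ℤ) :
    (g ^ m).coeff x = e ^ m * ch t x * (f ^ m).coeff x := by
  classical
  have h1 : ∀ w, w ∉ f.coeff.support → f.coeff w = 0 := fun w hw => Finsupp.notMem_support_iff.1 hw
  have h2 : ∀ w, w ∉ f.coeff.support → g.coeff w = 0 := fun w hw => by rw [hg, h1 w hw, mul_zero]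
  rw [coeff_pow f _ h1, coeff_pow g _ h2, Finset.mul_sum]
  refine Finset.sum_congr rfl fun k hk => ?_
  split_ifs with h
  · rw [Finset.prod_congr rfl fun w _ => by rw [hg, mul_pow, mul_pow], Finset.prod_mul_distrib,
      Finset.prod_mul_distrib, ← ch_sum ht, h, Finset.prod_pow_eq_pow_sum,
      (Finset.mem_piAntidiag.1 hk).1]
    ring
  · rw [mul_zero]

end ch

end Pool.Agent.NH36.Trop
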