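import Pool.Agent.NH36.Trop.Valued

/-!
# The Hasse-Witt matrix of a polynomial whose exponents are the vertices of a simplex
-/

set_option autoImplicit false
set_option linter.all false

open AddMonoidAlgebra

namespace Pool.Agent.NH36.Trop

/-- the points `w ∈ S` are affinely independent -/
def AffInd {n : ℕ} (S : Finset (Fin n → ℤ)) : Prop :=
  ∀ z : (Fin n → ℤ) → ℤ, ∑ w ∈ S, z w = 0 → ∑ w ∈ S, z w • w = 0 → ∀ w ∈ S, z w = 0

theorem solve {n : ℕ} {S : Finset (Fin n → ℤ)} (haff : AffInd S) {m p : ℕ} (hp : 1 ≤ p)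
    {u v : Fin n → ℤ} {a b k : (Fin n → ℤ) → ℕ} (ha : ∑ w ∈ S, a w = m)
    (hb : ∑ w ∈ S, b w = m) (hu : m • u = ∑ w ∈ S, a w • w) (hv : m • v = ∑ w ∈ S, b w • w)
    (hk : ∑ w ∈ S, k w = p - 1) (hkw : ∑ w ∈ S, k w • w = p • u - v) :
    ∀ w ∈ S, (m * k w + b w : ℤ) = p * a w := by
  have h1 : ∑ w ∈ S, ((m * k w + b w : ℤ) - p * a w) = 0 := by
    rw [Finset.sum_sub_distrib, Finset.sum_add_distrib, ← Finset.mul_sum, ← Finset.mul_sum]
    have e1 : ((∑ w ∈ S, k w : ℕ) : ℤ) = (p : ℤ) - 1 := by rw [hk]; push_cast [Nat.cast_sub hp]; ring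
    have e2 : ((∑ w ∈ S, a w : ℕ) : ℤ) = m := by rw [ha]
    have e3 : ((∑ w ∈ S, b w : ℕ) : ℤ) = m := by rw [hb]
    push_cast at e1 e2 e3
    rw [e1, e2, e3]
    ring
  have h2 : ∑ w ∈ S, ((m * k w + b w : ℤ) - p * a w) • w = 0 := by
    have e1 : ∑ w ∈ S, ((m * k w + b w : ℤ) - p * a w) • w =
        m • ∑ w ∈ S, k w • w + ∑ w ∈ S, b w • w - p • ∑ w ∈ S, a w • w := by
      rw [Finset.smul_sum, Finset.smul_sum, ← Finset.sum_add_distrib, ← Finset.sum_sub_distrib]
      refine Finset.sum_congr rfl fun w _ => ?_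
      rw [sub_smul, add_smul, mul_smul, mul_smul]
      simp only [natCast_zsmul]
    rw [e1, hkw, ← hu, ← hv, smul_sub, smul_comm m p u]
    abel
  intro w hw
  have := haff _ h1 h2 w hw
  linarith

theorem simplex_det {κ : Type*} [Field κ] {p : ℕ} [Fact p.Prime] [CharP κ p] {n : ℕ}
    (I : Finset (Fin n → ℤ)) (g : AddMonoidAlgebra κ (Fin n → ℤ)) (S : Finset (Fin n → ℤ))
    (hS : ∀ w, w ∈ S ↔ g.coeff w ≠ 0) (haff : AffInd S) (m : ℕ) (hm : m ∣ p - 1)
    (hI : ∀ u ∈ I, ∃ a : (Fin n → ℤ) → ℕ, (∀ w ∈ S, 0 < a w) ∧ ∑ w ∈ S, a w = m ∧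
      m • u = ∑ w ∈ S, a w • w) : (hw p I g).det ≠ 0 := by
  classical
  have hp : 1 ≤ p := (Fact.out : p.Prime).one_lt.le
  have hp0 := (Fact.out : p.Prime)
  by_cases hm0 : m = 0
  · -- then `p = 1`
    subst hm0
    rw [zero_dvd_iff] at hm
    have := hp0.one_lt
    omega
  choose! a ha1 ha2 ha3 using hI
  have hs : ∀ w, w ∉ S → g.coeff w = 0 := fun w hw => by
    by_contra h
    exact hw ((hS w).2 h)
  obtain ⟨r, hr⟩ := hm
  have key : hw p I g = Matrix.diagonal fun u : I =>
      (Nat.multinomial S (fun w => r * a u w) : κ) * ∏ w ∈ S, g.coeff w ^ (r * a u w) := by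
    ext u v
    simp only [hw, Matrix.of_apply]
    rw [coeff_pow g S hs]
    have hsol : ∀ k ∈ S.piAntidiag (p - 1), ∑ w ∈ S, k w • w = p • (u : Fin n → ℤ) - v →
        ∀ w ∈ S, a u w = a v w ∧ k w = r * a u w := by
      intro k hk hkw w hw
      have h1 := solve haff hp (ha2 u u.2) (ha2 v v.2) (ha3 u u.2) (ha3 v v.2)
        (Finset.mem_piAntidiag.1 hk).1 hkw w hw
      have hpr : (p : ℤ) = m * r + 1 := by
        have : p = m * r + 1 := by omega
        exact_mod_cast this
      rw [hpr] at h1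
      have h2 : (m : ℤ) * (k w - r * a u w) = a u w - a v w := by linarith
      have hle : ∀ x : I, a x w ≤ m := fun x => by
        rw [← ha2 x x.2]
        exact Finset.single_le_sum (f := a x) (fun _ _ => Nat.zero_le _) hw
      have h3 := hle u
      have h4 := hle v
      have h5 := ha1 u u.2 w hw
      have h6 := ha1 v v.2 w hw
      have h7 : (k w : ℤ) - r * a u w = 0 := by
        by_contra hne
        have h8 : (m : ℤ) ≤ |(a u w : ℤ) - a v w| := by
          rw [← h2, abs_mul, Nat.abs_cast]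
          have : 1 ≤ |(k w : ℤ) - r * a u w| := Int.one_le_abs hne
          nlinarith
        have h9 : |(a u w : ℤ) - a v w| < m := by
          rw [abs_lt]
          constructor <;> omega
        omega
      rw [h7, mul_zero] at h2
      constructor
      · omega
      · have : (k w : ℤ) = ((r * a u w : ℕ) : ℤ) := by push_cast; linarith
        exact_mod_cast this
    by_cases huv : u = v
    · subst huv
      rw [Matrix.diagonal_apply_eq]
      let k₀ : (Fin n → ℤ) → ℕ := fun w => if w ∈ S then r * a u w else 0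
      have hk₀ : ∀ w ∈ S, k₀ w = r * a u w := fun w hw => if_pos hw
      rw [Finset.sum_eq_single k₀]
      · rw [if_pos]
        · congr 1
          · congr 1
            exact Nat.multinomial_congr hk₀
          · exact Finset.prod_congr rfl fun w hw => by rw [hk₀ w hw]
        · rw [Finset.sum_congr rfl fun w hw => by rw [hk₀ w hw, mul_smul], ← Finset.smul_sum,
            ← ha3 u u.2, ← mul_smul, mul_comm r m, ← hr]
          obtain ⟨q, rfl⟩ : ∃ q, p = q + 1 := ⟨p - 1, by omega⟩
          rw [Nat.add_sub_cancel, succ_nsmul, add_sub_cancel_right]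
      · intro k hk hne
        rw [if_neg]
        intro hkw
        apply hne
        ext w
        by_cases hw : w ∈ S
        · rw [hk₀ w hw]
          exact (hsol k hk hkw w hw).2
        · have h1 : k w = 0 := by
            by_contra h
            exact hw ((Finset.mem_piAntidiag.1 hk).2 w h)
          rw [h1]
          exact (if_neg hw).symm
      · intro hk
        exfalso
        apply hk
        rw [Finset.mem_piAntidiag]
        constructor
        · rw [Finset.sum_congr rfl hk₀, ← Finset.mul_sum, ha2 u u.2, mul_comm, ← hr]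
        · intro w hw
          by_contra h
          exact hw (if_neg h)
    · rw [Matrix.diagonal_apply_ne _ huv]
      refine Finset.sum_eq_zero fun k hk => if_neg fun hkw => huv ?_
      apply Subtype.ext
      have h1 : m • (u : Fin n → ℤ) = m • (v : Fin n → ℤ) := by
        rw [ha3 u u.2, ha3 v v.2]
        exact Finset.sum_congr rfl fun w hw => by rw [(hsol k hk hkw w hw).1]
      ext i
      have h2 := congrFun h1 i
      simp only [Pi.smul_apply, nsmul_eq_mul] at h2
      exact mul_left_cancel₀ (Nat.cast_ne_zero.2 hm0) h2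
  rw [key, Matrix.det_diagonal]
  refine Finset.prod_ne_zero_iff.2 fun u _ => mul_ne_zero ?_
    (Finset.prod_ne_zero_iff.2 fun w hw => pow_ne_zero _ ((hS w).1 hw))
  intro h0
  rw [CharP.cast_eq_zero_iff κ p] at h0
  have h1 : p ∣ (p - 1).factorial := by
    have h2 := Nat.multinomial_spec S (fun w => r * a u w)
    rw [← Finset.mul_sum, ha2 u u.2, mul_comm r m, ← hr] at h2
    rw [← h2]
    exact Dvd.dvd.mul_left h0 _
  have h3 := hp0.dvd_factorial.1 h1
  omega

end Pool.Agent.NH36.Trop
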