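import Pool.Agent.NH36.Trop.Valued
import Pool.Agent.R410.OR.Tr2

/-!
# Lifting from a valuation of residue characteristic zero to closed points
-/

set_option autoImplicit false
set_option linter.all false

open AddMonoidAlgebra

universe u v

namespace Pool.Agent.NH36.Trop

open Pool.Agent.R410.OR (red red_of dominate prime_charP)

theorem units_ch {B F : Type*} [CommRing B] [Field F] (φ : B →+* F) {n : ℕ} (T : Fin n → Bˣ)
    (w : Fin n → ℤ) : φ ((∏ j, T j ^ w j : Bˣ) : B) = ch (fun j => φ (T j)) w := by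
  have h1 : φ ((∏ j, T j ^ w j : Bˣ) : B) = ((Units.map (φ : B →* F) (∏ j, T j ^ w j) : Fˣ) : F) :=
    rfl
  rw [h1, map_prod, Units.coe_prod]
  unfold ch
  refine Finset.prod_congr rfl fun j _ => ?_
  rw [map_zpow, Units.val_zpow_eq_zpow_val]
  rfl

theorem transfer {k : Type u} [Field k] [CharZero k] (O : ValuationSubring k)
    [CharZero (IsLocalRing.ResidueField O)] {ι : Type v} [Finite ι] (n : ι → ℕ)
    (I : ∀ i, Finset (Fin (n i) → ℤ)) (f : ∀ i, AddMonoidAlgebra k (Fin (n i) → ℤ))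
    (e : ∀ i, (Fin (n i) → ℤ) → k) (t : ∀ i, (Fin (n i) → ℤ) → Fin (n i) → k)
    (he : ∀ i, ∀ u ∈ I i, e i u ≠ 0) (ht : ∀ i, ∀ u ∈ I i, ∀ a, t i u a ≠ 0)
    (S : ∀ i, (Fin (n i) → ℤ) → Finset (Fin (n i) → ℤ))
    (h1 : ∀ i, ∀ u ∈ I i, ∀ w, e i u * ch (t i u) w * (f i).coeff w ∈ O)
    (h2 : ∀ i, ∀ u ∈ I i, ∀ w, w ∈ S i u ↔
      O.valuation (e i u * ch (t i u) w * (f i).coeff w) = 1)
    (h3 : ∀ i, ∀ u ∈ I i, ∃ m : (Fin (n i) → ℤ) → ℕ, (∀ w ∈ S i u, 0 < m w) ∧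
      ∑ w ∈ S i u, m w ≠ 0 ∧ (∑ w ∈ S i u, m w) • u = ∑ w ∈ S i u, m w • w)
    (h4 : ∀ i, ∀ u ∈ I i, ∀ v ∈ I i, S i u = S i v → e i u = e i v ∧ t i u = t i v)
    (A : Subalgebra ℤ k) (hA : A.FG) (F : ∀ i, AddMonoidAlgebra A (Fin (n i) → ℤ))
    (hF : ∀ i, mapRingHom _ (algebraMap A k) (F i) = f i) (c : A) (hc : c ≠ 0) :
    ∃ (A' : Subalgebra ℤ (IsLocalRing.ResidueField O)) (_ : A'.FG)
      (G : ∀ i, (Fin (n i) → ℤ) → AddMonoidAlgebra A' (Fin (n i) → ℤ))
      (_ : ∀ i, ∀ u ∈ I i, ∀ w, (((G i u).coeff w : A') : IsLocalRing.ResidueField O) =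
        red O (e i u * ch (t i u) w * (f i).coeff w))
      (_ : ∀ i, ∀ u ∈ I i, ∀ w ∈ S i u, IsUnit ((G i u).coeff w)) (N : ℕ),
      ∀ p : ℕ, N ≤ p → p.Prime → ∀ M' : Ideal A', M'.IsMaximal → (p : A') ∈ M' →
        (∀ i, ∀ u ∈ I i, (hw p ((I i).filter fun v => S i v = S i u)
          (mapRingHom _ (Ideal.Quotient.mk M') (G i u))).det ≠ 0) →
        ∃ M : Ideal A, M.IsMaximal ∧ (p : A) ∈ M ∧ c ∉ M ∧
          ∀ i, (hw p (I i) (mapRingHom _ (Ideal.Quotient.mk M) (F i))).det ≠ 0 := by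
  classical
  have hfin := Fintype.ofFinite ι
  let γ : ∀ i, (Fin (n i) → ℤ) → (Fin (n i) → ℤ) → k := fun i u w =>
    e i u * ch (t i u) w * (f i).coeff w
  have hγ0 : ∀ i u w, w ∉ (f i).coeff.support → γ i u w = 0 := by
    intro i u w hw
    change e i u * ch (t i u) w * (f i).coeff w = 0
    rw [Finsupp.notMem_support_iff.1 hw, mul_zero]
  let γ' : ∀ i, (Fin (n i) → ℤ) → (Fin (n i) → ℤ) → k := fun i u w =>
    if (γ i u w)⁻¹ ∈ O then (γ i u w)⁻¹ else 0
  have hγ' : ∀ i u w, γ' i u w ∈ O := by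
    intro i u w
    change (if (γ i u w)⁻¹ ∈ O then (γ i u w)⁻¹ else 0) ∈ O
    split_ifs with h
    · exact h
    · exact zero_mem O
  let Ω : Finset k := Finset.univ.biUnion fun i => (I i).biUnion fun u =>
    (f i).coeff.support.biUnion fun w => {γ i u w, γ' i u w}
  have hΩ : ∀ x ∈ Ω, x ∈ O := by
    intro x hx
    obtain ⟨i, _, hx⟩ := Finset.mem_biUnion.1 hx
    obtain ⟨u, hu, hx⟩ := Finset.mem_biUnion.1 hx
    obtain ⟨w, _, hx⟩ := Finset.mem_biUnion.1 hx
    rw [Finset.mem_insert, Finset.mem_singleton] at hx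
    rcases hx with rfl | rfl
    · exact h1 i u hu w
    · exact hγ' i u w
  have hΩγ : ∀ i, ∀ u ∈ I i, ∀ w ∈ (f i).coeff.support, γ i u w ∈ Ω ∧ γ' i u w ∈ Ω := by
    intro i u hu w hw
    have h0 : ∀ x, x ∈ ({γ i u w, γ' i u w} : Finset k) → x ∈ Ω := fun x hx =>
      Finset.mem_biUnion.2 ⟨i, Finset.mem_univ _, Finset.mem_biUnion.2 ⟨u, hu,
        Finset.mem_biUnion.2 ⟨w, hw, hx⟩⟩⟩
    exact ⟨h0 _ (by simp), h0 _ (by simp)⟩
  let C₁ : Subalgebra ℤ k := Algebra.adjoin ℤ (Ω : Set k)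
  have hC₁ : C₁.FG := Subalgebra.fg_def.2 ⟨Ω, Ω.finite_toSet, rfl⟩
  have hγC : ∀ i, ∀ u ∈ I i, ∀ w, γ i u w ∈ C₁ := by
    intro i u hu w
    by_cases hw : w ∈ (f i).coeff.support
    · exact Algebra.subset_adjoin (hΩγ i u hu w hw).1
    · rw [hγ0 i u w hw]
      exact zero_mem _
  have hCO : ∀ x : C₁, (algebraMap C₁ k) x ∈ O.toSubring := by
    intro x
    have h1 : C₁ ≤ subalgebraOfSubring O.toSubring := Algebra.adjoin_le fun y hy => hΩ y hy
    exact h1 x.2
  let ρ : C₁ →+* (IsLocalRing.ResidueField O) :=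
    (IsLocalRing.residue O).comp ((algebraMap C₁ k).codRestrict O.toSubring hCO)
  have hρ : ∀ x : C₁, ρ x = red O (x : k) := fun x => (red_of O (hCO x)).symm
  let A' : Subalgebra ℤ (IsLocalRing.ResidueField O) := ρ.toIntAlgHom.range
  have hfC : Algebra.FiniteType ℤ C₁ := (Subalgebra.fg_iff_finiteType _).mp hC₁
  have hA' : A'.FG := by
    have h0 : (⊤ : Subalgebra ℤ C₁).FG := hfC.1
    have := h0.map ρ.toIntAlgHom
    rwa [Algebra.map_top] at this
  let ρ' : C₁ →+* A' := (ρ.toIntAlgHom.rangeRestrict : C₁ →+* A')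
  have hρ's : Function.Surjective ρ' := ρ.toIntAlgHom.rangeRestrict_surjective
  have hρ' : ∀ x : C₁, ((ρ' x : A') : IsLocalRing.ResidueField O) = red O (x : k) := fun x => hρ x
  -- polynomials over `C₁`
  have hΓ : ∀ i, ∀ u, ∃ Γ : AddMonoidAlgebra C₁ (Fin (n i) → ℤ),
      u ∈ I i → ∀ w, ((Γ.coeff w : C₁) : k) = γ i u w := by
    intro i u
    by_cases hu : u ∈ I i
    · refine ⟨∑ w ∈ (f i).coeff.support, single w ⟨_, hγC i u hu w⟩, fun _ w => ?_⟩
      rw [coeff_sum, Finsupp.finset_sum_apply]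
      simp only [coeff_single, Finsupp.single_apply]
      rw [Finset.sum_ite_eq' (f i).coeff.support w]
      split_ifs with h
      · rfl
      · rw [hγ0 i u w h]
        rfl
    · exact ⟨0, fun h => absurd h hu⟩
  choose Γ hΓ using hΓ
  -- units
  have hunit : ∀ i, ∀ u ∈ I i, ∀ w ∈ S i u, IsUnit ((Γ i u).coeff w) := by
    intro i u hu w hw
    have hv : O.valuation (γ i u w) = 1 := (h2 i u hu w).1 hw
    have hg0 : γ i u w ≠ 0 := by
      intro h0
      rw [h0, map_zero] at hv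
      exact zero_ne_one hv
    have hws : w ∈ (f i).coeff.support := by
      by_contra h
      exact hg0 (hγ0 i u w h)
    have hinv : (γ i u w)⁻¹ ∈ O := by
      rw [← O.valuation_le_one_iff, map_inv₀, hv, inv_one]
    have hm : (γ i u w)⁻¹ ∈ C₁ := by
      have h5 := Algebra.subset_adjoin (R := ℤ) (show γ' i u w ∈ (Ω : Set k) from
        (hΩγ i u hu w hws).2)
      rwa [show γ' i u w = (γ i u w)⁻¹ from if_pos hinv] at h5
    refine IsUnit.of_mul_eq_one ⟨_, hm⟩ (Subtype.ext ?_)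
    change (((Γ i u).coeff w : C₁) : k) * (γ i u w)⁻¹ = 1
    rw [hΓ i u hu w]
    exact mul_inv_cancel₀ hg0
  -- the ring `B`
  let E : Finset k := Finset.univ.biUnion fun i => (I i).biUnion fun u =>
    {e i u, (e i u)⁻¹} ∪ (Finset.univ.image (fun a => t i u a) ∪
      Finset.univ.image fun a => (t i u a)⁻¹)
  let B : Subalgebra ℤ k := A ⊔ (C₁ ⊔ Algebra.adjoin ℤ (E : Set k))
  have hB : B.FG := hA.sup (hC₁.sup (Subalgebra.fg_def.2 ⟨E, E.finite_toSet, rfl⟩))
  have hAB : A ≤ B := le_sup_left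
  have hCB : C₁ ≤ B := le_sup_left.trans le_sup_right
  have hEB : ∀ x ∈ E, x ∈ B := fun x hx =>
    (le_sup_right.trans le_sup_right : Algebra.adjoin ℤ (E : Set k) ≤ B) (Algebra.subset_adjoin hx)
  have hE0 : ∀ i, ∀ u ∈ I i, ∀ x, x ∈ ({e i u, (e i u)⁻¹} ∪
      (Finset.univ.image (fun a => t i u a) ∪ Finset.univ.image fun a => (t i u a)⁻¹) :
        Finset k) → x ∈ B := fun i u hu x hx =>
    hEB x (Finset.mem_biUnion.2 ⟨i, Finset.mem_univ _, Finset.mem_biUnion.2 ⟨u, hu, hx⟩⟩)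
  have heB : ∀ i, ∀ u ∈ I i, e i u ∈ B := fun i u hu => hE0 i u hu _ (by simp)
  have heB' : ∀ i, ∀ u ∈ I i, (e i u)⁻¹ ∈ B := fun i u hu => hE0 i u hu _ (by simp)
  have htB : ∀ i, ∀ u ∈ I i, ∀ a, t i u a ∈ B := fun i u hu a => hE0 i u hu _
    (Finset.mem_union_right _ (Finset.mem_union_left _
      (Finset.mem_image_of_mem _ (Finset.mem_univ _))))
  have htB' : ∀ i, ∀ u ∈ I i, ∀ a, (t i u a)⁻¹ ∈ B := fun i u hu a => hE0 i u hu _
    (Finset.mem_union_right _ (Finset.mem_union_right _ (Finset.mem_image.2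
      ⟨a, Finset.mem_univ _, rfl⟩)))
  have hfB : Algebra.FiniteType ℤ B := (Subalgebra.fg_iff_finiteType _).mp hB
  have hfA : Algebra.FiniteType ℤ A := (Subalgebra.fg_iff_finiteType _).mp hA
  have hJ : IsJacobsonRing A := by
    have := Pool.Agent.Y162.HW.jac_int
    exact isJacobsonRing_of_finiteType (A := ℤ)
  have hNoeth : IsNoetherianRing C₁ := Algebra.FiniteType.isNoetherianRing ℤ C₁
  let iA : A →+* B := (Subalgebra.inclusion hAB).toRingHom
  have hiA : Function.Injective iA := Subalgebra.inclusion_injective hAB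
  let iC : C₁ →+* B := (Subalgebra.inclusion hCB).toRingHom
  have hiC : Function.Injective iC := Subalgebra.inclusion_injective hCB
  have hft : iC.FiniteType := by
    have h1 : (iC.comp (algebraMap ℤ C₁)).FiniteType := by
      have : (algebraMap ℤ B).FiniteType := RingHom.finiteType_algebraMap.mpr inferInstance
      rwa [show algebraMap ℤ B = iC.comp (algebraMap ℤ C₁) from RingHom.ext_int _ _] at this
    exact RingHom.FiniteType.of_comp_finiteType h1
  have hc' : iA c ≠ 0 := by rwa [map_ne_zero_iff _ hiA]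
  obtain ⟨c0, hc0, hlift⟩ := Pool.Agent.Y162.HW.chev iC hiC hft (iA c) hc'
  obtain ⟨N, hN⟩ := Pool.Agent.Y162.HW.large_primes c0 hc0
  refine ⟨A', hA', fun i u => mapRingHom _ ρ' (Γ i u), ?_, ?_, N, ?_⟩
  · intro i u hu w
    rw [coeff_mapRingHom, hρ', hΓ i u hu w]
  · intro i u hu w hw
    rw [coeff_mapRingHom]
    exact (hunit i u hu w hw).map ρ'
  intro p hNp hp M' hM' hpM' hdet'
  have hpf : Fact p.Prime := ⟨hp⟩
  letI : Field (A' ⧸ M') := Ideal.Quotient.field M'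
  have hM'p : M'.IsPrime := hM'.isPrime
  set 𝔫 : Ideal C₁ := M'.comap ρ' with h𝔫
  have h𝔫p : 𝔫.IsPrime := Ideal.comap_isPrime ρ' M'
  have hp𝔫 : (p : C₁) ∈ 𝔫 := by
    rw [h𝔫, Ideal.mem_comap, map_natCast]
    exact hpM'
  obtain ⟨P, hP, hPn⟩ := Ideal.exists_minimalPrimes_le
    (show Ideal.span {(p : C₁)} ≤ 𝔫 by rw [Ideal.span_le]; simpa using hp𝔫)
  have hPp : P.IsPrime := hP.1.1
  have hc0P := hN p hNp hp P hP
  obtain ⟨Q, hQ, hQP, hcQ⟩ := hlift P hPp hc0P
  obtain ⟨L, hLf, j₀, hj₀⟩ : ∃ (L : Type u) (_ : Field L) (j₀ : B →+* L), ∀ x, j₀ x = 0 ↔ x ∈ Q := by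
    refine ⟨FractionRing (B ⧸ Q), inferInstance,
      (algebraMap (B ⧸ Q) (FractionRing (B ⧸ Q))).comp (Ideal.Quotient.mk Q), fun x => ?_⟩
    change (algebraMap (B ⧸ Q) (FractionRing (B ⧸ Q))) (Ideal.Quotient.mk Q x) = 0 ↔ _
    rw [map_eq_zero_iff _ (IsFractionRing.injective _ _), Ideal.Quotient.eq_zero_iff_mem]
  have hpQ : ((p : ℕ) : B) ∈ Q := by
    have h1 : (p : C₁) ∈ Q.comap iC := by
      rw [hQP]; exact hP.1.2 (Ideal.subset_span rfl)
    rw [Ideal.mem_comap, map_natCast] at h1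
    exact h1
  let θ : C₁ →+* L := j₀.comp iC
  have hθker : RingHom.ker θ ≤ 𝔫 := by
    intro x hx
    apply hPn
    rw [← hQP, Ideal.mem_comap]
    exact (hj₀ _).1 hx
  obtain ⟨W, hθW, hW⟩ := dominate θ 𝔫 hθker
  let j : k → L := fun s => if h : s ∈ B then j₀ ⟨s, h⟩ else 0
  have hj : ∀ s (hs : s ∈ B), j s = j₀ ⟨s, hs⟩ := fun s hs => dif_pos hs
  have hju : ∀ s, s ∈ B → s⁻¹ ∈ B → s ≠ 0 → j s ≠ 0 := by
    intro s hs hs' hs0 h0
    rw [hj s hs] at h0
    have h5 : (⟨s, hs⟩ : B) * ⟨s⁻¹, hs'⟩ = 1 := Subtype.ext (mul_inv_cancel₀ hs0)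
    have h6 := congrArg j₀ h5
    rw [map_mul, h0, zero_mul, map_one] at h6
    exact zero_ne_one h6
  -- the residue map
  let rθ : C₁ →+* IsLocalRing.ResidueField W :=
    (IsLocalRing.residue W).comp (θ.codRestrict W.toSubring hθW)
  have hrθ : ∀ x, rθ x = red W (θ x) := fun x => (red_of W (hθW x)).symm
  have hrθ0 : ∀ x, rθ x = 0 ↔ x ∈ 𝔫 := by
    intro x
    rw [← hW x]
    change IsLocalRing.residue W ⟨θ x, hθW x⟩ = 0 ↔ _
    rw [IsLocalRing.residue_eq_zero_iff, ValuationSubring.valuation_lt_one_iff]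
  have hkerρ : RingHom.ker ρ' ≤ RingHom.ker rθ := by
    intro x hx
    rw [RingHom.mem_ker, hrθ0, h𝔫, Ideal.mem_comap, RingHom.mem_ker.1 hx]
    exact zero_mem _
  let η' : A' →+* IsLocalRing.ResidueField W := ρ'.liftOfSurjective hρ's ⟨rθ, hkerρ⟩
  have hη' : ∀ x, η' (ρ' x) = rθ x := fun x =>
    RingHom.liftOfRightInverse_comp_apply _ _ _ ⟨rθ, hkerρ⟩ x
  have hη0 : ∀ y ∈ M', η' y = 0 := by
    intro y hy
    obtain ⟨x, rfl⟩ := hρ's y
    rw [hη', hrθ0]
    exact hy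
  let η : A' ⧸ M' →+* IsLocalRing.ResidueField W := Ideal.Quotient.lift M' η' hη0
  have hη : ∀ x, η (Ideal.Quotient.mk M' (ρ' x)) = rθ x := fun x => by
    change Ideal.Quotient.lift M' η' hη0 _ = _
    rw [Ideal.Quotient.lift_mk, hη']
  -- the key identity
  have key : ∀ i, ∀ u ∈ I i, ∀ w, θ ((Γ i u).coeff w) =
      j (e i u) * ch (fun a => j (t i u a)) w *
        (mapRingHom _ (j₀.comp iA) (F i)).coeff w := by
    intro i u hu w
    let T : Fin (n i) → Bˣ := fun a => ⟨⟨t i u a, htB i u hu a⟩, ⟨(t i u a)⁻¹, htB' i u hu a⟩,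
      Subtype.ext (mul_inv_cancel₀ (ht i u hu a)), Subtype.ext (inv_mul_cancel₀ (ht i u hu a))⟩
    have e1 := units_ch (algebraMap B k) T w
    have e2 := units_ch j₀ T w
    have e3 : (fun a => j (t i u a)) = fun a => j₀ (T a) := by
      ext a
      exact hj _ _
    rw [e3, ← e2, hj _ (heB i u hu), coeff_mapRingHom]
    change j₀ (iC ((Γ i u).coeff w)) = _ * j₀ (iA ((F i).coeff w))
    rw [← map_mul, ← map_mul]
    congr 1
    apply Subtype.ext
    change (((Γ i u).coeff w : C₁) : k) = e i u * (algebraMap B k) ((∏ a, T a ^ w a : Bˣ) : B) *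
      (algebraMap A k) ((F i).coeff w)
    rw [e1, hΓ i u hu w, ← coeff_mapRingHom, hF i]
    rfl
  have hLord : ∀ i, (hw p (I i) (mapRingHom _ (j₀.comp iA) (F i))).det ≠ 0 := by
    intro i
    refine valued W p hp.one_lt.le (I i) _ (fun u => j (e i u)) (fun u a => j (t i u a))
      (fun u hu => hju _ (heB i u hu) (heB' i u hu) (he i u hu))
      (fun u hu a => hju _ (htB i u hu a) (htB' i u hu a) (ht i u hu a)) (S i) ?_ ?_ (h3 i) ?_
      (fun u => mapRingHom _ rθ (Γ i u)) ?_ ?_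
    · intro u hu w
      rw [← key i u hu w]
      exact hθW _
    · intro u hu w
      rw [← key i u hu w]
      constructor
      · intro hw
        have hle := (W.valuation_le_one_iff _).2 (hθW ((Γ i u).coeff w))
        have hn : ¬ W.valuation (θ ((Γ i u).coeff w)) < 1 := by
          rw [hW]
          intro hm
          exact h𝔫p.ne_top (Ideal.eq_top_of_isUnit_mem _ hm (hunit i u hu w hw))
        exact le_antisymm hle (not_lt.1 hn)
      · intro hv
        by_contra hw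
        have hlt : O.valuation (γ i u w) < 1 :=
          lt_of_le_of_ne ((O.valuation_le_one_iff _).2 (h1 i u hu w))
            fun h => hw ((h2 i u hu w).2 h)
        have h5 : ρ' ((Γ i u).coeff w) = 0 := by
          apply Subtype.ext
          rw [hρ', hΓ i u hu w, red_of O (h1 i u hu w)]
          change _ = 0
          rw [IsLocalRing.residue_eq_zero_iff, ValuationSubring.valuation_lt_one_iff]
          exact hlt
        have h6 : (Γ i u).coeff w ∈ 𝔫 := by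
          rw [h𝔫, Ideal.mem_comap, h5]
          exact zero_mem _
        rw [← hW] at h6
        exact absurd hv h6.ne
    · intro u hu v hv huv
      obtain ⟨h5, h6⟩ := h4 i u hu v hv huv
      simp only [h5, h6]
      exact ⟨trivial, trivial⟩
    · intro u hu w
      rw [coeff_mapRingHom, hrθ, key i u hu w]
    · intro u hu
      have e1 : mapRingHom _ rθ (Γ i u) =
          mapRingHom _ η (mapRingHom _ (Ideal.Quotient.mk M') (mapRingHom _ ρ' (Γ i u))) := by
        ext w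
        rw [coeff_mapRingHom, coeff_mapRingHom, coeff_mapRingHom, coeff_mapRingHom, hη]
      rw [e1, hw_map, ← RingHom.map_det]
      exact (map_ne_zero η).2 (hdet' i u hu)
  let M0 : Ideal A := Q.comap iA
  have hM0 : M0.IsPrime := Ideal.comap_isPrime iA Q
  have hpM0 : (p : A) ∈ M0 := by
    change iA (p : A) ∈ Q
    rw [map_natCast]
    exact hpQ
  have hdM0 : ∀ i, (hw p (I i) (F i)).det ∉ M0 := by
    intro i h0
    apply hLord i
    rw [hw_map, ← RingHom.map_det]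
    exact (hj₀ _).2 h0
  have hcM0 : c ∉ M0 := hcQ
  have hprod : c * ∏ i, (hw p (I i) (F i)).det ∉ M0 := by
    intro hm
    rcases hM0.mem_or_mem hm with h1 | h1
    · exact hcM0 h1
    · obtain ⟨i, -, hi⟩ := (hM0.prod_mem_iff).1 h1
      exact hdM0 i hi
  have hjac : M0.jacobson = M0 := isJacobsonRing_iff_prime_eq.mp hJ M0 hM0
  rw [← hjac, Ideal.jacobson, Submodule.mem_sInf] at hprod
  push Not at hprod
  obtain ⟨M, ⟨hM0M, hM⟩, hMa⟩ := hprod
  refine ⟨M, hM, hM0M hpM0, fun h1 => hMa (Ideal.mul_mem_right _ M h1), fun i => ?_⟩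
  rw [hw_map, ← RingHom.map_det]
  intro h1
  refine hMa (Ideal.mul_mem_left M _ ?_)
  exact Ideal.mem_of_dvd M (Finset.dvd_prod_of_mem
    (fun i => (hw p (I i) (F i)).det) (Finset.mem_univ i))
    (Ideal.Quotient.eq_zero_iff_mem.1 h1)

end Pool.Agent.NH36.Trop
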