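import Pool.Agent.NH36.Trop.Basic

/-!
# The determinant of the Hasse-Witt matrix over a valued field
-/

set_option autoImplicit false
set_option linter.all false

open AddMonoidAlgebra

namespace Pool.Agent.NH36.Trop

open Pool.Agent.R410.OR (red red_of)

section
variable {L : Type*} [Field L] (W : ValuationSubring L) {n : ℕ}

theorem red_mem_ne {x : L} (hx : x ∈ W) : red W x ≠ 0 ↔ W.valuation x = 1 := by
  rw [red_of W hx, Ne, IsLocalRing.residue_eq_zero_iff, ValuationSubring.valuation_lt_one_iff]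
  change ¬ W.valuation x < 1 ↔ _
  rw [not_lt]
  constructor
  · intro h
    exact le_antisymm ((W.valuation_le_one_iff _).2 hx) h
  · intro h
    exact h.ge

theorem red_one : red W (1 : L) = 1 := by
  rw [red_of W (one_mem W)]
  exact map_one _

/-- the quotient of the two normalizations -/
noncomputable def qq (e e' : L) (t t' : Fin n → L) (v : Fin n → ℤ) : L :=
  (e * ch t v) / (e' * ch t' v)

theorem qq_pow {e e' : L} {t t' : Fin n → L} (he' : e' ≠ 0)
    (ht : ∀ i, t i ≠ 0) (ht' : ∀ i, t' i ≠ 0) (a : (Fin n → ℤ) → L) (v : Fin n → ℤ)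
    (S : Finset (Fin n → ℤ)) (m : (Fin n → ℤ) → ℕ) (hv : (∑ w ∈ S, m w) • v = ∑ w ∈ S, m w • w)
    (ha : ∀ w ∈ S, a w ≠ 0) :
    qq e e' t t' v ^ (∑ w ∈ S, m w) =
      ∏ w ∈ S, ((e * ch t w * a w) / (e' * ch t' w * a w)) ^ m w := by
  unfold qq
  rw [div_pow, mul_pow, mul_pow, ← ch_nsmul ht, ← ch_nsmul ht', hv, ch_sum ht, ch_sum ht',
    ← Finset.prod_pow_eq_pow_sum, ← Finset.prod_pow_eq_pow_sum, ← Finset.prod_mul_distrib,
    ← Finset.prod_mul_distrib, ← Finset.prod_div_distrib]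
  refine Finset.prod_congr rfl fun w hw => ?_
  rw [← mul_pow, ← mul_pow, ← div_pow]
  congr 1
  rw [mul_div_mul_right _ _ (ha w hw)]

theorem val_qq_le {e e' : L} {t t' : Fin n → L} (he' : e' ≠ 0)
    (ht : ∀ i, t i ≠ 0) (ht' : ∀ i, t' i ≠ 0) (a : (Fin n → ℤ) → L) (v : Fin n → ℤ)
    (S : Finset (Fin n → ℤ)) (m : (Fin n → ℤ) → ℕ) (hm : ∀ w ∈ S, 0 < m w)
    (hm0 : ∑ w ∈ S, m w ≠ 0) (hv : (∑ w ∈ S, m w) • v = ∑ w ∈ S, m w • w)
    (h1 : ∀ w ∈ S, W.valuation (e * ch t w * a w) ≤ 1)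
    (h2 : ∀ w ∈ S, W.valuation (e' * ch t' w * a w) = 1) :
    W.valuation (qq e e' t t' v) ≤ 1 ∧
      (W.valuation (qq e e' t t' v) = 1 → ∀ w ∈ S, W.valuation (e * ch t w * a w) = 1) := by
  have ha : ∀ w ∈ S, a w ≠ 0 := by
    intro w hw h0
    have := h2 w hw
    rw [h0, mul_zero, map_zero] at this
    exact zero_ne_one this
  have key : W.valuation (qq e e' t t' v) ^ (∑ w ∈ S, m w) =
      ∏ w ∈ S, W.valuation (e * ch t w * a w) ^ m w := by
    rw [← map_pow, qq_pow he' ht ht' a v S m hv ha, map_prod]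
    refine Finset.prod_congr rfl fun w hw => ?_
    rw [map_pow, map_div₀, h2 w hw, div_one]
  have hle : ∀ w ∈ S, W.valuation (e * ch t w * a w) ^ m w ≤ 1 := fun w hw =>
    pow_le_one₀ zero_le (h1 w hw)
  constructor
  · have h3 : W.valuation (qq e e' t t' v) ^ (∑ w ∈ S, m w) ≤ 1 := by
      rw [key]
      exact Finset.prod_le_one' hle
    exact (pow_le_one_iff hm0).1 h3
  · intro h4 w hw
    by_contra h5
    have h6 : W.valuation (e * ch t w * a w) < 1 := lt_of_le_of_ne (h1 w hw) h5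
    rw [h4, one_pow] at key
    have h7 : W.valuation (e * ch t w * a w) ^ m w < 1 :=
      pow_lt_one₀ zero_le h6 (hm w hw).ne'
    have h8 : ∏ w ∈ S, W.valuation (e * ch t w * a w) ^ m w ≤
        W.valuation (e * ch t w * a w) ^ m w := by
      classical
      rw [← Finset.mul_prod_erase S _ hw]
      exact mul_le_of_le_one_right' (Finset.prod_le_one' fun w' hw' =>
        hle w' (Finset.mem_of_mem_erase hw'))
    rw [← key] at h8
    exact absurd (h8.trans_lt h7) (lt_irrefl _)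

/-- **The Hasse-Witt matrix over a valued field.**  The reductions `g u` of the twists of `f` are
attached to the points of `I`. -/
theorem valued (p : ℕ) (hp : 1 ≤ p) (I : Finset (Fin n → ℤ)) (f : AddMonoidAlgebra L (Fin n → ℤ))
    (e : (Fin n → ℤ) → L) (t : (Fin n → ℤ) → Fin n → L) (he : ∀ u ∈ I, e u ≠ 0)
    (ht : ∀ u ∈ I, ∀ i, t u i ≠ 0) (S : (Fin n → ℤ) → Finset (Fin n → ℤ))
    (h1 : ∀ u ∈ I, ∀ w, e u * ch (t u) w * f.coeff w ∈ W)
    (h2 : ∀ u ∈ I, ∀ w, w ∈ S u ↔ W.valuation (e u * ch (t u) w * f.coeff w) = 1)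
    (h3 : ∀ u ∈ I, ∃ m : (Fin n → ℤ) → ℕ, (∀ w ∈ S u, 0 < m w) ∧ ∑ w ∈ S u, m w ≠ 0 ∧
      (∑ w ∈ S u, m w) • u = ∑ w ∈ S u, m w • w)
    (h4 : ∀ u ∈ I, ∀ v ∈ I, S u = S v → e u = e v ∧ t u = t v)
    (g : (Fin n → ℤ) → AddMonoidAlgebra (IsLocalRing.ResidueField W) (Fin n → ℤ))
    (hg : ∀ u ∈ I, ∀ w, (g u).coeff w = red W (e u * ch (t u) w * f.coeff w))
    (h5 : ∀ u ∈ I, (hw p (I.filter fun v => S v = S u) (g u)).det ≠ 0) :
    (hw p I f).det ≠ 0 := by
  classical
  obtain ⟨q, rfl⟩ : ∃ q, p = q + 1 := ⟨p - 1, by omega⟩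
  -- the twisted polynomials over `W`
  have hf' : ∀ u ∈ I, ∃ F : AddMonoidAlgebra W (Fin n → ℤ),
      (∀ w, ((F.coeff w : W) : L) = e u * ch (t u) w * f.coeff w) ∧
      mapRingHom _ (IsLocalRing.residue W) F = g u := by
    intro u hu
    refine ⟨∑ w ∈ f.coeff.support, single w ⟨_, h1 u hu w⟩, ?_, ?_⟩
    · intro w
      rw [coeff_sum, Finsupp.finset_sum_apply]
      simp only [coeff_single, Finsupp.single_apply]
      rw [Finset.sum_ite_eq' f.coeff.support w]
      split_ifs with h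
      · rfl
      · rw [Finsupp.notMem_support_iff.1 h, mul_zero]
        rfl
    · ext w
      rw [coeff_mapRingHom, hg u hu, coeff_sum, Finsupp.finset_sum_apply]
      simp only [coeff_single, Finsupp.single_apply]
      rw [Finset.sum_ite_eq' f.coeff.support w]
      split_ifs with h
      · rw [red_of W (h1 u hu w)]
      · rw [map_zero, Finsupp.notMem_support_iff.1 h, mul_zero, red_of W (zero_mem W)]
        exact (map_zero _).symm
  choose! G hG1 hG2 using hf'
  have hGf : ∀ u ∈ I, ∀ x, ((((G u) ^ q).coeff x : W) : L) =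
      e u ^ q * ch (t u) x * (f ^ q).coeff x := by
    intro u hu x
    have hh := coeff_twist (ht u hu) (e u) f (mapRingHom _ W.subtype (G u)) (fun w => by
      rw [coeff_mapRingHom]
      exact hG1 u hu w) q x
    rw [← hh, ← map_pow, coeff_mapRingHom]
    rfl
  -- the quotients
  have hq : ∀ u ∈ I, ∀ v ∈ I, W.valuation (qq (e u) (e v) (t u) (t v) v) ≤ 1 ∧
      (W.valuation (qq (e u) (e v) (t u) (t v) v) = 1 → S v ⊆ S u) := by
    intro u hu v hv
    obtain ⟨m, hm1, hm2, hm3⟩ := h3 v hv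
    obtain ⟨ha, hb⟩ := val_qq_le W (e := e u) (e' := e v) (t := t u) (t' := t v) (he v hv)
      (ht u hu) (ht v hv) (fun w => f.coeff w) v (S v) m hm1 hm2 hm3
      (fun w _ => (W.valuation_le_one_iff _).2 (h1 u hu w)) (fun w hw => (h2 v hv w).1 hw)
    exact ⟨ha, fun h w hw => (h2 u hu w).2 (hb h w hw)⟩
  have hqW : ∀ u ∈ I, ∀ v ∈ I, qq (e u) (e v) (t u) (t v) v ∈ W := fun u hu v hv =>
    (W.valuation_le_one_iff _).1 (hq u hu v hv).1
  -- the matrix over `W`
  let M : Matrix I I W := Matrix.of fun u v =>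
    ((G u) ^ q).coeff ((q + 1) • (u : Fin n → ℤ) - v) *
      ⟨qq (e u) (e v) (t u) (t v) v, hqW u u.2 v v.2⟩
  let s : I → L := fun u => e u * ch (t u) u
  have hs : ∀ u : I, s u ≠ 0 := fun u => mul_ne_zero (he u u.2) (ch_ne_zero (ht u u.2) _)
  have hM : M.map W.subtype = Matrix.diagonal (fun u => s u ^ (q + 1)) * hw (q + 1) I f *
      Matrix.diagonal fun v => (s v)⁻¹ := by
    ext u v
    rw [Matrix.mul_diagonal, Matrix.diagonal_mul, Matrix.map_apply]
    change ((((G u) ^ q).coeff ((q + 1) • (u : Fin n → ℤ) - v) : W) : L) *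
      qq (e u) (e v) (t u) (t v) v = _
    rw [hGf u u.2, ch_sub (ht u u.2), ch_nsmul (ht u u.2)]
    unfold qq hw
    simp only [Matrix.of_apply, Nat.add_sub_cancel]
    have hc1 := ch_ne_zero (ht u u.2) (v : Fin n → ℤ)
    have hc2 := ch_ne_zero (ht v v.2) (v : Fin n → ℤ)
    have hc3 := he v v.2
    change _ = (e u * ch (t u) u) ^ (q + 1) * _ * (e v * ch (t v) v)⁻¹
    field_simp
    ring
  -- the reduced matrix
  have hdet : (M.map (IsLocalRing.residue W)).det ≠ 0 := by
    intro h0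
    obtain ⟨x, hx, hMx⟩ := Matrix.exists_mulVec_eq_zero_iff.2 h0
    have hne : (Finset.univ.filter fun u : I => x u ≠ 0).Nonempty := by
      by_contra hem
      apply hx
      ext u
      by_contra hu
      exact hem ⟨u, Finset.mem_filter.2 ⟨Finset.mem_univ _, hu⟩⟩
    obtain ⟨u₀, hu₀, hmin⟩ := Finset.exists_min_image _ (fun u : I => (S u).card) hne
    have hxu₀ : x u₀ ≠ 0 := (Finset.mem_filter.1 hu₀).2
    -- the relevant block
    have hrow : ∀ u : I, S u = S u₀ → ∀ v : I, S v ≠ S u₀ →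
        M.map (IsLocalRing.residue W) u v * x v = 0 := by
      intro u hu v hv
      by_cases hxv : x v = 0
      · rw [hxv, mul_zero]
      · have hcard := hmin v (Finset.mem_filter.2 ⟨Finset.mem_univ _, hxv⟩)
        have hnu : W.valuation (qq (e u) (e v) (t u) (t v) v) ≠ 1 := by
          intro h
          have hsub := (hq u u.2 v v.2).2 h
          rw [hu] at hsub
          exact hv (Finset.eq_of_subset_of_card_le hsub hcard)
        have hz : IsLocalRing.residue W ⟨qq (e u) (e v) (t u) (t v) v, hqW u u.2 v v.2⟩ = 0 := by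
          rw [← red_of W (hqW u u.2 v v.2)]
          by_contra hh
          exact hnu ((red_mem_ne W (hqW u u.2 v v.2)).1 hh)
        rw [Matrix.map_apply]
        change IsLocalRing.residue W (_ * _) * x v = 0
        rw [map_mul, hz, mul_zero, zero_mul]
    have hin : ∀ v ∈ I.filter (fun v => S v = S u₀), v ∈ I := fun v hv =>
      (Finset.mem_filter.1 hv).1
    let y : (I.filter fun v => S v = S u₀) → IsLocalRing.ResidueField W := fun v =>
      x ⟨v, hin v v.2⟩
    have hy : y ≠ 0 := by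
      intro h
      exact hxu₀ (congrFun h ⟨u₀, Finset.mem_filter.2 ⟨u₀.2, rfl⟩⟩)
    refine h5 u₀ u₀.2 (Matrix.exists_mulVec_eq_zero_iff.1 ⟨y, hy, ?_⟩)
    ext u
    have hu := (Finset.mem_filter.1 u.2)
    have hu' := congrFun hMx ⟨u, hin u u.2⟩
    rw [Matrix.mulVec, dotProduct] at hu' ⊢
    rw [Pi.zero_apply] at hu' ⊢
    rw [← hu']
    have e1 : ∑ v : I, M.map (IsLocalRing.residue W) ⟨u, hin u u.2⟩ v * x v =
        ∑ v ∈ Finset.univ.filter (fun v : I => S v = S u₀),
          M.map (IsLocalRing.residue W) ⟨u, hin u u.2⟩ v * x v := by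
      symm
      apply Finset.sum_subset (Finset.filter_subset _ _)
      intro v _ hv
      exact hrow ⟨u, hin u u.2⟩ hu.2 v fun h => hv (Finset.mem_filter.2 ⟨Finset.mem_univ _, h⟩)
    rw [e1]
    refine Finset.sum_bij' (fun v _ => ⟨v, hin v v.2⟩)
      (fun v hv => ⟨v, Finset.mem_filter.2 ⟨v.2, (Finset.mem_filter.1 hv).2⟩⟩) ?_ ?_ ?_ ?_ ?_
    · intro v _
      exact Finset.mem_filter.2 ⟨Finset.mem_univ _, (Finset.mem_filter.1 v.2).2⟩
    · intro v hv
      exact Finset.mem_univ _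
    · intro v _
      rfl
    · intro v _
      rfl
    · intro v _
      change _ = M.map (IsLocalRing.residue W) ⟨u, hin u u.2⟩ ⟨v, hin v v.2⟩ * x ⟨v, hin v v.2⟩
      congr 1
      rw [Matrix.map_apply]
      change _ = IsLocalRing.residue W (_ * _)
      have hv := (Finset.mem_filter.1 v.2)
      obtain ⟨he1, ht1⟩ := h4 u hu.1 v hv.1 (hu.2.trans hv.2.symm)
      have hq1 : (⟨qq (e u) (e v) (t u) (t v) v, hqW u hu.1 v hv.1⟩ : W) = 1 := by
        apply Subtype.ext
        change qq (e u) (e v) (t u) (t v) v = 1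
        unfold qq
        rw [he1, ht1]
        exact div_self (mul_ne_zero (he v hv.1) (ch_ne_zero (ht v hv.1) _))
      rw [map_mul, hq1, map_one, mul_one]
      have hgu : g u₀ = g u := by
        obtain ⟨he2, ht2⟩ := h4 u hu.1 u₀ u₀.2 hu.2
        ext w
        rw [hg u hu.1, hg u₀ u₀.2, he2, ht2]
      rw [hgu, ← hG2 u hu.1]
      simp only [hw, Matrix.of_apply, Nat.add_sub_cancel]
      rw [← map_pow, coeff_mapRingHom]
  intro h0
  apply hdet
  have e2 : (M.map W.subtype).det = 0 := by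
    rw [hM, Matrix.det_mul, Matrix.det_mul, h0, mul_zero, zero_mul]
  have e3 : M.det = 0 := by
    have e4 : W.subtype M.det = 0 := by
      rw [RingHom.map_det]
      exact e2
    exact Subtype.ext e4
  have e5 := RingHom.map_det (IsLocalRing.residue W) M
  rw [e3, map_zero] at e5
  exact e5.symm

end

end Pool.Agent.NH36.Trop
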